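import Pool.Agent.H8.SG.Main

/-!
MP_a37e4a_nt, AlmostAll: in every interval `(x, x + y]`, `x ^ (2/5 + δ) ≤ y ≤ x`, the inequality
`c_n ^ (1/(n-1)) > c_(n+1) ^ (1/n)` for cyclic numbers fails for at most `C y exp (- (log x) ^ c)` of the `n` with
`c_n` in the interval; a gap `c_(n+1) - c_n ≥ (log c_n) ^ ε` is as rare.
-/

namespace Pool.Agent.Results.MP_a37e4a_nt.AlmostAll

/-- `m` is a cyclic number: `gcd (m, φ m) = 1`. -/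
def CyclicNumber (m : ℕ) : Prop := Nat.gcd m (Nat.totient m) = 1

/-- The `n`-th cyclic number `c_n` in increasing order, for `n ≥ 1`: `c_1 = 1`, `c_2 = 2`, `c_3 = 3`, `c_4 = 5`
(`Nat.nth` counts from `0`). -/
noncomputable def cyclic (n : ℕ) : ℕ := Nat.nth CyclicNumber (n - 1)

theorem result :
    (∀ ε : ℝ, 0 < ε → ∃ c : ℝ, 0 < c ∧ ∀ δ : ℝ, 0 < δ → ∃ C : ℝ, 0 < C ∧ ∀ x y : ℕ, 2 ≤ x →
      (x : ℝ) ^ (2 / 5 + δ) ≤ y → y ≤ x →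
      ({n : ℕ | 2 ≤ n ∧ (Real.log (cyclic n)) ^ ε ≤ (cyclic (n + 1) : ℝ) - cyclic n ∧
        x < cyclic n ∧ cyclic n ≤ x + y}.ncard : ℝ) ≤ C * y * Real.exp (-(Real.log x) ^ c)) ∧
    (∃ c : ℝ, 0 < c ∧ ∀ δ : ℝ, 0 < δ →
      (∃ C : ℝ, 0 < C ∧ ∀ x y : ℕ, 2 ≤ x → (x : ℝ) ^ (2 / 5 + δ) ≤ y → y ≤ x →
        ({n : ℕ | 2 ≤ n ∧
          ¬ ((cyclic (n + 1) : ℝ) ^ (1 / (n : ℝ)) < (cyclic n : ℝ) ^ (1 / ((n : ℝ) - 1))) ∧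
          x < cyclic n ∧ cyclic n ≤ x + y}.ncard : ℝ) ≤ C * y * Real.exp (-(Real.log x) ^ c)) ∧
      (∀ lam : ℝ, 0 < lam → ∃ C : ℝ, 0 < C ∧ ∀ x y : ℕ, 2 ≤ x → (x : ℝ) ^ (2 / 5 + δ) ≤ y → y ≤ x →
        ({n : ℕ | 2 ≤ n ∧
          ¬ (((n : ℝ) - 1) * (Real.log (cyclic (n + 1)) - Real.log (cyclic n)) <
            lam * Real.log (cyclic n)) ∧
          x < cyclic n ∧ cyclic n ≤ x + y}.ncard : ℝ) ≤ C * y * Real.exp (-(Real.log x) ^ c))) :=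
  Pool.Agent.H8.SG.main3

end Pool.Agent.Results.MP_a37e4a_nt.AlmostAll
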