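import Pool.Agent.H8.UC.Asm8

/-! # MP_821da1_nt: Thue's inequality for every inhomogeneous `F` with irreducible leading form; in every pencil `F + c` almost no curve has an
integer point; uniform in all lower coefficients

`f` is a form of degree `n ≥ 4`, irreducible over `ℚ`; `F` runs over ALL integer polynomials of degree `n` with leading form `f`; `S` is its size: the
coefficient of `x^a y^b` is `≤ S^(n-a-b)` in absolute value for `a + b < n`. `|F(x,y)| ≤ H` has at most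
`κ (S + H^(2/n) (1 + log H))` integer solutions, and at most that many of the curves `F + c = 0`, `|c| ≤ H`, have an integer point. `κ` depends on `f` only. -/

namespace Pool.Agent.Results.MP_821da1_nt.EveryPencil

open MvPolynomial

theorem result (n : ℕ) (hn : 4 ≤ n) (f : MvPolynomial (Fin 2) ℤ) (hf : f.IsHomogeneous n)
    (hirr : Irreducible (map (Int.castRingHom ℚ) f)) :
    ∃ κ : ℝ, ∀ S H : ℕ, 1 ≤ S → 1 ≤ H →
    ∀ F : MvPolynomial (Fin 2) ℤ, F.totalDegree ≤ n → homogeneousComponent n F = f →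
    (∀ m : Fin 2 →₀ ℕ, m.degree < n → |F.coeff m| ≤ (S : ℤ) ^ (n - m.degree)) →
    {P : Fin 2 → ℤ | |eval P F| ≤ (H : ℤ)}.Finite ∧
    (({P : Fin 2 → ℤ | |eval P F| ≤ (H : ℤ)}.ncard : ℕ) : ℝ) ≤
      κ * (S + (H : ℝ) ^ (2 / (n : ℝ)) * (1 + Real.log H)) ∧
    (({c : ℤ | |c| ≤ (H : ℤ) ∧ ∃ P : Fin 2 → ℤ, eval P (F + C c) = 0}.ncard : ℕ) : ℝ) ≤
      κ * (S + (H : ℝ) ^ (2 / (n : ℝ)) * (1 + Real.log H)) := by
  obtain ⟨κ, hκ⟩ := Pool.Agent.H8.UC.main8 n hn f hf hirr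
  refine ⟨κ, fun S H hS hH F hF hFf hFb => ?_⟩
  obtain ⟨h1, h2⟩ := hκ S H hS hH F hF hFf hFb
  refine ⟨h1, h2, le_trans ?_ h2⟩
  have hsub : {c : ℤ | |c| ≤ (H : ℤ) ∧ ∃ P : Fin 2 → ℤ, eval P (F + C c) = 0} ⊆
      (fun P : Fin 2 → ℤ => -(eval P F)) '' {P : Fin 2 → ℤ | |eval P F| ≤ (H : ℤ)} := by
    rintro c ⟨hc, P, hP⟩
    have h3 : eval P F = -c := by
      have h4 : eval P F + c = 0 := by simpa using hP
      linarith
    refine ⟨P, ?_, ?_⟩
    · show |eval P F| ≤ (H : ℤ)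
      rw [h3, abs_neg]
      exact hc
    · show -(eval P F) = c
      rw [h3, neg_neg]
  exact_mod_cast (Set.ncard_le_ncard hsub (h1.image _)).trans (Set.ncard_image_le h1)

end Pool.Agent.Results.MP_821da1_nt.EveryPencil
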