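import Pool.Agent.H8.UC.Asm3

/-! # MP_821da1_nt: an inhomogeneous Thue inequality, uniform in all lower coefficients

`f` is a form of degree `n ≥ 4`, irreducible over `ℚ`; `F` runs over ALL integer polynomials with leading form `f` whose part of degree `n-1` is not in
`ℚ f_x + ℚ f_y`; `S` is its size: the coefficient of `x^a y^b` is `≤ S^(n-a-b)`. At most `κ (S + H^(3/n+ε))` of the curves `F + c = 0`, `|c| ≤ H`, have an
integer point, and `|F(P)| ≤ H` has at most that many integer solutions `P` on smooth curves `F = F(P)`. `κ` depends on `f` and `ε` only. -/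

namespace Pool.Agent.Results.MP_821da1_nt.InhomogeneousThue

open MvPolynomial

theorem result (n : ℕ) (hn : 4 ≤ n) (f : MvPolynomial (Fin 2) ℤ) (hf : f.IsHomogeneous n)
    (hirr : Irreducible (map (Int.castRingHom ℚ) f)) (ε : ℝ) (hε : 0 < ε) :
    ∃ κ : ℝ, ∀ S H : ℕ, 1 ≤ S → 1 ≤ H →
    ∀ F : MvPolynomial (Fin 2) ℤ, F.totalDegree ≤ n → homogeneousComponent n F = f →
    (∀ m : Fin 2 →₀ ℕ, m.degree < n → |F.coeff m| ≤ (S : ℤ) ^ (n - m.degree)) →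
    (∀ w : Fin 2 → ℚ, map (Int.castRingHom ℚ) (homogeneousComponent (n - 1) F) ≠
      ∑ i, C (w i) * pderiv i (map (Int.castRingHom ℚ) f)) →
    (({c : ℤ | |c| ≤ (H : ℤ) ∧ ∃ P : Fin 2 → ℤ, eval P (F + C c) = 0}.ncard : ℕ) : ℝ) ≤
      κ * (S + (H : ℝ) ^ (3 / (n : ℝ) + ε)) ∧
    {P : Fin 2 → ℤ | |eval P F| ≤ (H : ℤ) ∧ ∀ a b : ℂ, aeval ![a, b] (F - C (eval P F)) = 0 →
      aeval ![a, b] (pderiv 0 F) ≠ 0 ∨ aeval ![a, b] (pderiv 1 F) ≠ 0}.Finite ∧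
    (({P : Fin 2 → ℤ | |eval P F| ≤ (H : ℤ) ∧ ∀ a b : ℂ, aeval ![a, b] (F - C (eval P F)) = 0 →
      aeval ![a, b] (pderiv 0 F) ≠ 0 ∨ aeval ![a, b] (pderiv 1 F) ≠ 0}.ncard : ℕ) : ℝ) ≤
      κ * (S + (H : ℝ) ^ (3 / (n : ℝ) + ε)) := by
  obtain ⟨κ, hκ⟩ := Pool.Agent.H8.UC.main3 n hn f hf hirr ε hε
  refine ⟨κ, fun S H hS hH F hF hFf hFb hgen => ?_⟩
  obtain ⟨h1, h2, h3⟩ := hκ S H hS hH F hF hFf hFb hgen
  set Q : Set (Fin 2 → ℤ) := {P : Fin 2 → ℤ | |eval P F| ≤ (H : ℤ) ∧ ∀ a b : ℂ, aeval ![a, b] (F - C (eval P F)) = 0 →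
      aeval ![a, b] (pderiv 0 F) ≠ 0 ∨ aeval ![a, b] (pderiv 1 F) ≠ 0} with hQ
  have hmaps : ∀ P ∈ Q, ((-(eval P F), P) : ℤ × (Fin 2 → ℤ)) ∈ {p : ℤ × (Fin 2 → ℤ) | |p.1| ≤ (H : ℤ) ∧
      H12.ON.Smooth (F + C p.1) ∧ eval p.2 (F + C p.1) = 0} := by
    rintro P ⟨k1, k2⟩
    refine ⟨by simpa using k1, ?_, by simp⟩
    intro a b hab
    have h4 : F + C (-(eval P F)) = F - C (eval P F) := by rw [map_neg, sub_eq_add_neg]
    have h5 := k2 a b (by rw [← h4]; exact hab)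
    have h6 : ∀ i, pderiv i (F + C (-(eval P F))) = pderiv i F := fun i => by rw [map_add, pderiv_C, add_zero]
    rw [h6, h6]
    exact h5
  have hinj : Set.InjOn (fun P : Fin 2 → ℤ => ((-(eval P F), P) : ℤ × (Fin 2 → ℤ))) Q := by
    intro P _ P' _ h
    exact (Prod.mk.injEq _ _ _ _ ▸ h : _ ∧ P = P').2
  have hfin : Q.Finite := Set.Finite.of_finite_image (h2.subset (by rintro _ ⟨P, hP, rfl⟩; exact hmaps P hP)) hinj
  refine ⟨h1, hfin, le_trans ?_ h3⟩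
  exact_mod_cast Set.ncard_le_ncard_of_injOn _ hmaps hinj h2

end Pool.Agent.Results.MP_821da1_nt.InhomogeneousThue
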