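import Pool.Agent.H8.OA.LiftB

/-!
# Siegel's theorem: one unknown integer point on one unknown curve for each real number field

For every `n` there are a number `E n` and, for every subfield `K` of `ℝ`, a polynomial `Φ n K` in `ℤ[x,y]` and a point
`(a n K, b n K)` in `ℤ²` with the following two properties. `H ≥ 2` bounds the absolute values of the coefficients,
`m = max(|x|,|y|)`.

(A) Let `k` be a number field of degree at least three and `G ∈ ℤ[x,y]` of total degree at most `n`, irreducible over `ℚ`,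
such that all points at infinity of the curve `G = 0` with real residue field carry `k` (`AtInf k G`). Every integer point
`(x,y)` of `G = 0` has `m ≤ H^(E n)`, or it lies, for some subfield `K` of `ℝ` isomorphic to `k`, over the one point
`(a n K, b n K)`: the curve `Φ n K = 0` also carries `K` at infinity, its degree is at most `E n`, its coefficients at most
`H^(E n)`, the point is on it, and there is a finite map of the curve `G = 0` to the curve `Φ n K = 0`, of degree at most
`E n` and with coefficients at most `H^(E n)`, which takes `(x,y)` to `(a n K, b n K)` (`Lies`, `Over`). So for each `k` and `n`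
there is a number `C` with `m ≤ C H^(E n)` for all integer points of all these curves.

(B) For every `n` there are `N` and `D`: let `F ∈ ℤ[x,y]` be of total degree at most `n`, without non-constant zeros in
`ℚ̄[s,1/s]` (`Scope F`: for an irreducible curve this is exactly the hypothesis of Siegel's theorem). Every integer point
`(x,y)` of `F = 0` has `m ≤ H^D`, or there is a number field `K ⊂ ℝ` of degree at least three and at most `D`, of
discriminant at most `H^D`, such that `(x,y)` lifts to an integer point `(x + c y, w)`, `0 ≤ c ≤ D`,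
`m, |w| ≤ |x + c y|^D`, of a curve `G = 0` as in (A) of degree at most `N`, with coefficients at most `H^D` and `AtInf K G`,
and this point lies over the point `(a N K, b N K)` of the curve `Φ N K = 0` as in (A), all heights at most `H^D`.

So Siegel's theorem holds for all plane curves with a bound polynomial in the coefficients, up to one unknown integer point
of one unknown curve for each real number field.
-/

namespace Pool.Agent.Results.MP_821da1_nt.OneCurveOnePoint

open MvPolynomial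

/-- the hypothesis of Siegel's theorem: every solution of `F = 0` in `ℚ̄[s, 1/s]` is constant -/
def Scope (F : MvPolynomial (Fin 2) ℤ) : Prop :=
  ∀ X Y : LaurentPolynomial (AlgebraicClosure ℚ),
    eval₂ (Int.castRingHom (LaurentPolynomial (AlgebraicClosure ℚ))) ![X, Y] F = 0 →
      ∃ a b : AlgebraicClosure ℚ, X = LaurentPolynomial.C a ∧ Y = LaurentPolynomial.C b

/-- `G` is irreducible over `ℚ`, and all points at infinity of `G = 0` with real residue field carry `k`: for every
number field `L` with a real embedding and all `X, Y` in `L((t))` with `G(X, Y) = 0`, either `X, Y` are in `L[[t]]` or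
`k` embeds in `L` -/
def AtInf (k : Type) [Field k] (G : MvPolynomial (Fin 2) ℤ) : Prop :=
  Irreducible (map (Int.castRingHom ℚ) G) ∧
    ∀ (L : Type) [Field L] [NumberField L], Nonempty (L →+* ℝ) → ∀ X Y : LaurentSeries L,
      eval₂ (Int.castRingHom (LaurentSeries L)) ![X, Y] G = 0 →
        (X ∈ (HahnSeries.ofPowerSeries ℤ L).range ∧ Y ∈ (HahnSeries.ofPowerSeries ℤ L).range) ∨
          Nonempty (k →+* L)

/-- the finite map `(A₁/A₀, A₂/A₀)` of the curve `G = 0` to the curve `Φ = 0`, of degree at most `E` and with coefficients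
at most `H^E`, takes `(x,y)` to `(a,b)`: at all complex zeros `(s,t)` of `G` with `A₀(s,t) ≠ 0` its value `(U,W)` is a zero
of `Φ`, and `|U|, |W|` are bounded by a polynomial in `|s|, |t|` (no poles at finite points), `|s|, |t|` by a polynomial
in `|U|` (finiteness) -/
def Over (E H : ℕ) (G Φ : MvPolynomial (Fin 2) ℤ) (x y a b : ℤ) : Prop :=
  ∃ A : Fin 3 → MvPolynomial (Fin 2) ℤ,
    (∀ i, (A i).totalDegree ≤ E ∧ ∀ m, |coeff m (A i)| ≤ (H : ℤ) ^ E) ∧
    eval ![x, y] (A 0) ≠ 0 ∧ eval ![x, y] (A 1) = a * eval ![x, y] (A 0) ∧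
    eval ![x, y] (A 2) = b * eval ![x, y] (A 0) ∧
    ∀ s t U W : ℂ, aeval ![s, t] G = 0 → aeval ![s, t] (A 0) ≠ 0 →
      aeval ![s, t] (A 1) = U * aeval ![s, t] (A 0) → aeval ![s, t] (A 2) = W * aeval ![s, t] (A 0) →
      aeval ![U, W] Φ = 0 ∧ max ‖U‖ ‖W‖ ≤ (H : ℝ) ^ E * (1 + max ‖s‖ ‖t‖) ^ E ∧
        max ‖s‖ ‖t‖ ≤ (H : ℝ) ^ E * (1 + ‖U‖) ^ E

/-- `(x,y)` lies over the integer point `(a,b)` of the curve `Φ = 0`, which carries `K` at infinity -/
def Lies (E H : ℕ) (K : Subfield ℝ) (Φ : MvPolynomial (Fin 2) ℤ) (a b : ℤ) (G : MvPolynomial (Fin 2) ℤ)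
    (x y : ℤ) : Prop :=
  AtInf K Φ ∧ Φ.totalDegree ≤ E ∧ (∀ m, |coeff m Φ| ≤ (H : ℤ) ^ E) ∧ eval ![a, b] Φ = 0 ∧ Over E H G Φ x y a b

/-- **Siegel's theorem, with one unknown integer point on one unknown curve for each real number field.** -/
theorem result : ∃ (Φ : ℕ → Subfield ℝ → MvPolynomial (Fin 2) ℤ) (a b : ℕ → Subfield ℝ → ℤ) (E : ℕ → ℕ),
    (∀ (n : ℕ) (k : Type) [Field k] [NumberField k], 3 ≤ Module.finrank ℚ k →
      ∀ (G : MvPolynomial (Fin 2) ℤ) (H : ℕ), G.totalDegree ≤ n → AtInf k G → 2 ≤ H →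
        (∀ m, |coeff m G| ≤ (H : ℤ)) → ∀ x y : ℤ, eval ![x, y] G = 0 →
          max |x| |y| ≤ (H : ℤ) ^ E n ∨
            ∃ K : Subfield ℝ, Nonempty (k ≃+* K) ∧ Lies (E n) H K (Φ n K) (a n K) (b n K) G x y) ∧
    (∀ (n : ℕ) (k : Type) [Field k] [NumberField k], 3 ≤ Module.finrank ℚ k → ∃ C : ℕ,
      ∀ (G : MvPolynomial (Fin 2) ℤ) (H : ℕ), G.totalDegree ≤ n → AtInf k G → 2 ≤ H →
        (∀ m, |coeff m G| ≤ (H : ℤ)) → ∀ x y : ℤ, eval ![x, y] G = 0 → max |x| |y| ≤ C * (H : ℤ) ^ E n) ∧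
    ∀ n : ℕ, ∃ N D : ℕ, ∀ (F : MvPolynomial (Fin 2) ℤ) (H : ℕ), F.totalDegree ≤ n →
      Scope F → 2 ≤ H → (∀ m, |coeff m F| ≤ (H : ℤ)) → ∀ x y : ℤ, eval ![x, y] F = 0 →
        max |x| |y| ≤ (H : ℤ) ^ D ∨
          ∃ (K : Subfield ℝ) (_ : NumberField K) (G : MvPolynomial (Fin 2) ℤ) (c : ℕ) (w : ℤ),
            3 ≤ Module.finrank ℚ K ∧ Module.finrank ℚ K ≤ D ∧ |NumberField.discr K| ≤ (H : ℤ) ^ D ∧
            G.totalDegree ≤ N ∧ AtInf K G ∧ (∀ m, |coeff m G| ≤ (H : ℤ) ^ D) ∧ c ≤ D ∧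
            max |x| |y| ≤ |x + c * y| ^ D ∧ |w| ≤ |x + c * y| ^ D ∧
            eval ![x + c * y, w] G = 0 ∧ Lies D H K (Φ N K) (a N K) (b N K) G (x + c * y) w := by
  obtain ⟨Φ, a, b, E, hA, hB⟩ := Pool.Agent.H8.OA.oneAll
  refine ⟨Φ, a, b, E, fun n k _ _ hk G H h1 h2 h3 h4 x y h5 => hA n k hk G H h1 h2 h3 h4 x y h5, ?_, hB⟩
  intro n k _ _ hk
  have hfin : {K : Subfield ℝ | Nonempty (k ≃+* K)}.Finite := by
    refine (Set.finite_range (fun σ : k →+* ℝ => σ.fieldRange)).subset ?_
    rintro K ⟨φ⟩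
    refine ⟨K.subtype.comp φ.toRingHom, ?_⟩
    ext z
    simp only [RingHom.mem_fieldRange]
    constructor
    · rintro ⟨w, rfl⟩
      exact (φ w).2
    · intro hz
      exact ⟨φ.symm ⟨z, hz⟩, by simp⟩
  obtain ⟨C, hC⟩ := (hfin.image fun K : Subfield ℝ => ((1 + (a n K).natAbs) ^ E n : ℕ)).bddAbove
  refine ⟨C + 1, fun G H h1 h2 h3 h4 x y h5 => ?_⟩
  have hH1 : (1 : ℤ) ≤ (H : ℤ) ^ E n := one_le_pow₀ (by exact_mod_cast (by omega : 1 ≤ H))
  rcases hA n k hk G H h1 h2 h3 h4 x y h5 with h | ⟨K, hK, -, -, -, -, A, -, hA0, hA1, hA2, hov⟩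
  · refine h.trans ?_
    have hC0 : (0 : ℤ) ≤ C := by positivity
    push_cast
    nlinarith
  · have hz : ∀ (F : MvPolynomial (Fin 2) ℤ), aeval ![(x : ℂ), (y : ℂ)] F = ((eval ![x, y] F : ℤ) : ℂ) := by
      intro F
      have h6 : (![(x : ℂ), (y : ℂ)] : Fin 2 → ℂ) = (algebraMap ℤ ℂ) ∘ ![x, y] := by
        funext i
        fin_cases i <;> simp
      rw [h6, aeval_algebraMap_apply]
      have h7 : aeval ![x, y] F = eval ![x, y] F := by
        rw [← coe_aeval_eq_eval]
        rfl
      rw [h7]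
      simp
    have h6 := (hov (x : ℂ) (y : ℂ) (a n K : ℂ) (b n K : ℂ) (by rw [hz, h5]; simp)
      (by rw [hz]; exact_mod_cast hA0) (by rw [hz, hz, hA1]; push_cast; ring)
      (by rw [hz, hz, hA2]; push_cast; ring)).2.2
    have h7 : (1 + (a n K).natAbs) ^ E n ≤ C := hC ⟨K, hK, rfl⟩
    have h8 : (max |x| |y| : ℤ) ≤ (H : ℤ) ^ E n * (C : ℤ) := by
      have h9 : ((max |x| |y| : ℤ) : ℝ) ≤ (((H : ℤ) ^ E n * (C : ℤ) : ℤ) : ℝ) := by
        rw [Complex.norm_intCast, Complex.norm_intCast, Complex.norm_intCast] at h6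
        have h10 : (1 + |((a n K : ℤ) : ℝ)|) ^ E n ≤ (C : ℝ) := by
          have h11 : (((1 + (a n K).natAbs) ^ E n : ℕ) : ℝ) ≤ (C : ℝ) := by exact_mod_cast h7
          rw [Nat.cast_pow, Nat.cast_add, Nat.cast_one, Nat.cast_natAbs, Int.cast_abs] at h11
          exact h11
        push_cast
        refine h6.trans ?_
        exact mul_le_mul_of_nonneg_left h10 (by positivity)
      exact_mod_cast h9
    push_cast
    nlinarith

end Pool.Agent.Results.MP_821da1_nt.OneCurveOnePoint
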