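import Pool.Agent.H12.ON.Mai
import Pool.Agent.H12.ON.Fam

/-!
# MP_821da1_nt: one unknown integer point for each real number field

`Smooth F`: the complex affine curve `F = 0` is smooth. `Curve n F`: `F` has degree `n`, its part `f` of degree `n` is
irreducible over `ℚ`, `F` is smooth and has no homothety: no map `w + X ↦ w + z X`, `z ≠ 1`, maps the curve onto itself.
(Such an `F` is absolutely irreducible; the genus is `(n - 1) (n - 2) / 2`.) The real zeros `θ` of `f(1,T)` are the real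
points at infinity of the curve; the residue field of `θ` is `ℚ(θ) = Subfield.closure {θ}`.
-/

namespace Pool.Agent.Results.MP_821da1_nt.OneUnknownPoint

open MvPolynomial

/-- the complex affine curve `F = 0` is smooth -/
def Smooth (F : MvPolynomial (Fin 2) ℤ) : Prop :=
  ∀ a b : ℂ, aeval ![a, b] F = 0 → aeval ![a, b] (pderiv 0 F) ≠ 0 ∨ aeval ![a, b] (pderiv 1 F) ≠ 0

/-- degree `n`, irreducible leading form, smooth, without homothety -/
structure Curve (n : ℕ) (F : MvPolynomial (Fin 2) ℤ) : Prop where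
  deg : F.totalDegree ≤ n
  lead : Irreducible (map (Int.castRingHom ℚ) (homogeneousComponent n F))
  smooth : Smooth F
  nohom : ∀ (w : Fin 2 → ℂ) (z : ℂ), z ≠ 0 →
    aeval (fun i => C (w i) + C z * X i : Fin 2 → MvPolynomial (Fin 2) ℂ) F =
      C (z ^ n) * aeval (fun i => C (w i) + X i : Fin 2 → MvPolynomial (Fin 2) ℂ) F → z = 1

/-- `f(1,θ) = 0`, `f` the part of degree `n` of `F` -/
def AtInf (n : ℕ) (F : MvPolynomial (Fin 2) ℤ) (θ : ℝ) : Prop :=
  aeval ![1, θ] (homogeneousComponent n F) = 0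

/-- numerator and denominator at most `B` -/
def Height (B : ℕ) (q : ℚ) : Prop := q.num.natAbs ≤ B ∧ q.den ≤ B

/-- `(G, Q)` is the image of `(F, P)` under an affine map over `ℚ` of height at most `B` -/
def Image (B : ℕ) (F G : MvPolynomial (Fin 2) ℤ) (P Q : Fin 2 → ℤ) : Prop :=
  ∃ (A : Matrix (Fin 2) (Fin 2) ℚ) (w : Fin 2 → ℚ) (c : ℚ), A.det ≠ 0 ∧ c ≠ 0 ∧
    (∀ i j, Height B (A i j)) ∧ (∀ i, Height B (w i)) ∧ Height B c ∧
    (∀ i, (Q i : ℚ) = ∑ j, A i j * P j + w i) ∧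
    aeval (fun i => ∑ j, C (A i j) * X j + C (w i) : Fin 2 → MvPolynomial (Fin 2) ℚ) G =
      C c * map (Int.castRingHom ℚ) F

/-- the pairs `(F, P)`, `F = G + L` smooth, `deg L ≤ n - 2`, `P` an integer zero of `F` with a coordinate larger than
`H^E`, `H ≥ 2` a bound for the coefficients of `F` -/
def Large (n E : ℕ) (G : MvPolynomial (Fin 2) ℤ) : Set (MvPolynomial (Fin 2) ℤ × (Fin 2 → ℤ)) :=
  {p | (p.1 - G).totalDegree ≤ n - 2 ∧ Smooth p.1 ∧ eval p.2 p.1 = 0 ∧
    ∃ H : ℕ, 2 ≤ H ∧ (∀ m, |p.1.coeff m| ≤ (H : ℤ)) ∧ ∃ i, (H : ℤ) ^ E < |p.2 i|}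

private theorem hom_sum (n : ℕ) (F : MvPolynomial (Fin 2) ℤ) : homogeneousComponent n F =
    ∑ j ∈ Finset.range (n + 1), monomial (Finsupp.single 0 (n - j) + Finsupp.single 1 j)
      (F.coeff (Finsupp.single 0 (n - j) + Finsupp.single 1 j)) := by
  ext m
  rw [coeff_homogeneousComponent, coeff_sum]
  have hd : m.degree = m 0 + m 1 := by
    rw [Finsupp.degree_eq_sum, Fin.sum_univ_two]
  have hs : ∀ j, (Finsupp.single (0 : Fin 2) (n - j) + Finsupp.single 1 j : Fin 2 →₀ ℕ) = m ↔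
      n - j = m 0 ∧ j = m 1 := by
    intro j
    constructor
    · rintro rfl
      simp
    · rintro ⟨h1, h2⟩
      ext i
      fin_cases i
      · simpa using h1
      · simpa using h2
  by_cases h : m.degree = n
  · rw [if_pos h, Finset.sum_eq_single (m 1)]
    · have h1 := (hs (m 1)).2 ⟨by omega, rfl⟩
      rw [h1, coeff_monomial, if_pos rfl]
    · intro j _ hj
      rw [coeff_monomial, if_neg]
      intro h2
      exact hj ((hs j).1 h2).2
    · intro h2
      exact absurd (Finset.mem_range.2 (by omega)) h2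
  · rw [if_neg h]
    symm
    refine Finset.sum_eq_zero fun j hj => ?_
    rw [coeff_monomial, if_neg]
    intro h2
    have h3 := (hs j).1 h2
    have h4 := Finset.mem_range.1 hj
    omega

private theorem at_inf (n : ℕ) (F : MvPolynomial (Fin 2) ℤ) (θ : ℝ)
    (h : Polynomial.aeval θ (Pool.Agent.H12.ON.ftop n F) = 0) : AtInf n F θ := by
  unfold AtInf
  rw [← h, hom_sum, Pool.Agent.H12.ON.ftop, map_sum, map_sum]
  refine Finset.sum_congr rfl fun j _ => ?_
  rw [aeval_monomial, Finsupp.prod_fintype _ _ (by simp), Fin.prod_univ_two, Polynomial.aeval_monomial]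
  simp

theorem result (n : ℕ) (hn : 4 ≤ n) : ∃ E : ℕ,
    (∃ (FK : Subfield ℝ → MvPolynomial (Fin 2) ℤ) (PK : Subfield ℝ → Fin 2 → ℤ),
      ∀ (F : MvPolynomial (Fin 2) ℤ) (H : ℕ), Curve n F → 2 ≤ H → (∀ m, |F.coeff m| ≤ (H : ℤ)) →
        ∀ P : Fin 2 → ℤ, eval P F = 0 → (∀ i, |P i| ≤ (H : ℤ) ^ E) ∨
          ∃ θ : ℝ, AtInf n F θ ∧
            Image (H ^ E) (FK (Subfield.closure {θ})) F (PK (Subfield.closure {θ})) P) ∧
    ∀ G : MvPolynomial (Fin 2) ℤ, G.totalDegree ≤ n →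
      Irreducible (map (Int.castRingHom ℚ) (homogeneousComponent n G)) →
      (∀ w : Fin 2 → ℚ, map (Int.castRingHom ℚ) (homogeneousComponent (n - 1) G) ≠
        ∑ i, C (w i) * pderiv i (map (Int.castRingHom ℚ) (homogeneousComponent n G))) →
      (Large n E G).encard ≤ n ∧
      ∃ C : ℕ, ∀ (F : MvPolynomial (Fin 2) ℤ) (H : ℕ), (F - G).totalDegree ≤ n - 2 → Smooth F → 2 ≤ H →
        (∀ m, |F.coeff m| ≤ (H : ℤ)) → ∀ P : Fin 2 → ℤ, eval P F = 0 → ∀ i, |P i| ≤ C * (H : ℤ) ^ E := by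
  obtain ⟨E₁, FK, PK, h₁⟩ := Pool.Agent.H12.ON.main n hn
  obtain ⟨E₂, h₂⟩ := Pool.Agent.H12.ON.family n hn
  have hpow : ∀ (H a b : ℕ), 2 ≤ H → a ≤ b → (H : ℤ) ^ a ≤ (H : ℤ) ^ b := by
    intro H a b hH hab
    refine pow_le_pow_right₀ ?_ hab
    have : (2 : ℤ) ≤ H := by exact_mod_cast hH
    linarith
  refine ⟨max E₁ E₂, ⟨FK, PK, fun F H hF hH hc P hP => ?_⟩, fun G hG hl hgen => ?_⟩
  · rcases h₁ F H ⟨hF.deg, hF.lead,
      Pool.Agent.H12.ON.irr_of_smooth (by omega) hF.deg hF.lead hF.smooth, hF.smooth, hF.nohom⟩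
      hH hc P hP with h | ⟨θ, hθ, h⟩
    · exact Or.inl fun i => (h i).trans (hpow H _ _ hH (le_max_left _ _))
    · exact Or.inr ⟨θ, at_inf n F θ hθ,
        Pool.Agent.H12.ON.Rel.mono (Nat.pow_le_pow_right (by omega) (le_max_left _ _)) h⟩
  · have hcard : (Large n (max E₁ E₂) G).encard ≤ n := by
      refine le_trans (Set.encard_le_encard ?_) (h₂ G hG hl hgen)
      rintro p ⟨h1, h2, h3, H, hH, hc, i, hi⟩
      exact ⟨h1, h2, h3, H, hH, hc, i, (hpow H _ _ hH (le_max_right _ _)).trans_lt hi⟩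
    refine ⟨hcard, ?_⟩
    have hfin : (Large n (max E₁ E₂) G).Finite := Set.finite_of_encard_le_coe hcard
    obtain ⟨C, hC⟩ := (hfin.image fun p : MvPolynomial (Fin 2) ℤ × (Fin 2 → ℤ) =>
      max (p.2 0).natAbs (p.2 1).natAbs).bddAbove
    refine ⟨C + 1, fun F H hF hs hH hc P hP i => ?_⟩
    have hH1 : (1 : ℤ) ≤ (H : ℤ) ^ max E₁ E₂ := one_le_pow₀ (by exact_mod_cast (by omega : 1 ≤ H))
    by_cases h : ∃ i, (H : ℤ) ^ max E₁ E₂ < |P i|
    · have h1 : max (P 0).natAbs (P 1).natAbs ≤ C := hC ⟨(F, P), ⟨hF, hs, hP, H, hH, hc, h⟩, rfl⟩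
      have h2 : |P i| ≤ (C : ℤ) := by
        rw [Int.abs_eq_natAbs]
        have h3 : (P i).natAbs ≤ C := by
          fin_cases i
          · exact (le_max_left _ _).trans h1
          · exact (le_max_right _ _).trans h1
        exact_mod_cast h3
      push_cast
      nlinarith
    · push Not at h
      refine (h i).trans ?_
      have hC0 : (0 : ℤ) ≤ C := by positivity
      push_cast
      nlinarith

end Pool.Agent.Results.MP_821da1_nt.OneUnknownPoint
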